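import Pool.Agent.Y202.ARW.Wiener

/-!
# Wiener's test for additive random walks

The definitions `AddWalk`, `rangeSet`, `SS`, `Dim` and what they rest on are in
`Pool/Agent/H380R3/ARW/Defs.lean`; the Riesz kernel `riesz` and the Riesz capacity `cap` are in
`Pool/Agent/Y202/ARW/Cap.lean`.
-/

open MeasureTheory ProbabilityTheory
open scoped ENNReal

namespace Pool.Agent.Results.MP_8df5c2_pr.WienerTest

open Pool.Agent.H380R3.ARW Pool.Agent.Y202.ARW

/-- The weight `2 ^ (-(d - α N) k)` of the shell `S_k`. -/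
noncomputable def weight (d N : ℕ) (α : ℝ) (k : ℕ) : ℝ≥0∞ :=
  ENNReal.ofReal (2 ^ (-((d : ℝ) - α * N) * k))

/-- The Wiener series `∑_{k ≥ 1} 2 ^ (-(d - α N) k) cap (A ∩ S_k)`, where `cap` is the Riesz
capacity of index `α N`. -/
noncomputable def wienerSeries {d : ℕ} (N : ℕ) (α : ℝ) (A : Set (Fin d → ℤ)) : ℝ≥0∞ :=
  ∑' k : ℕ, weight d N α (k + 1) * cap (α * N) (A ∩ SS d (k + 1))

/-- Let `ξ` be the increments of `N ≥ 1` independent copies of a transient random walk on `ℤ ^ d`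
satisfying the Barlow-Taylor condition with index `α > 0`, where `α N < d`.

* For the subsets `B` of the shells `S_k`, `k ≥ 1`, the probability that the additive random walk
  hits `B` lies between two constant multiples of `2 ^ (-(d - α N) k) cap B`.
* For every nonrandom set `A` the intersection of `A` with the range of the additive random walk
  is almost surely bounded if the Wiener series of `A` converges, and almost surely unbounded if
  it diverges.
* It is almost surely unbounded if `Dim A > d - α N` and almost surely bounded if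
  `Dim A < d - α N`. -/
theorem result {d N : ℕ} {Ω : Type*} [MeasurableSpace Ω] (P : Measure Ω)
    [IsProbabilityMeasure P] (α : ℝ) (hα : 0 < α) (hN : 0 < N) (hdim : α * N < d)
    (ξ : Fin N → ℕ → Ω → Fin d → ℤ) (hW : AddWalk P α ξ) :
    (∃ c C : ℝ≥0∞, c ≠ 0 ∧ C ≠ ∞ ∧ ∀ (k : ℕ) (B : Set (Fin d → ℤ)), 1 ≤ k → B ⊆ SS d k →
      c * (weight d N α k * cap (α * N) B) ≤ P {ω | (rangeSet ξ ω ∩ B).Nonempty} ∧
      P {ω | (rangeSet ξ ω ∩ B).Nonempty} ≤ C * (weight d N α k * cap (α * N) B)) ∧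
    ∀ A : Set (Fin d → ℤ),
      (wienerSeries N α A < ∞ → ∀ᵐ ω ∂P, Bornology.IsBounded (rangeSet ξ ω ∩ A)) ∧
      (wienerSeries N α A = ∞ → ∀ᵐ ω ∂P, ¬ Bornology.IsBounded (rangeSet ξ ω ∩ A)) ∧
      (d - α * N < Dim A → ∀ᵐ ω ∂P, ¬ Bornology.IsBounded (rangeSet ξ ω ∩ A)) ∧
      (Dim A < d - α * N → ∀ᵐ ω ∂P, Bornology.IsBounded (rangeSet ξ ω ∩ A)) := by
  refine ⟨?_, fun A => ⟨fun h => ?_, fun h => ?_, fun h => big hW hα hN hdim A h,
    fun h => miss hW hα hN hdim A h⟩⟩
  · obtain ⟨c, C, hc, hC, h⟩ := hit_cap hW hα hN hdim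
    refine ⟨c, C, hc, hC, fun k B hk hB => ?_⟩
    obtain ⟨m, rfl⟩ : ∃ m, k = m + 1 := ⟨k - 1, by omega⟩
    exact h m B hB
  · exact wiener_fin hW hα hN hdim A h.ne
  · exact wiener_inf hW hα hN hdim A h

end Pool.Agent.Results.MP_8df5c2_pr.WienerTest
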